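import Pool.Agent.Y577.KD.Main

set_option autoImplicit false

/-!
# Every property between spreading cliques and cores is evasive (MP_257582_lc)

Let `2 ≤ r ≤ n` and let `P` be any property of graphs on `n` labelled vertices (neither monotonicity
nor invariance under isomorphisms is needed) such that

* every graph has `P` in which some complete subgraph on `r` vertices spreads: starting from it, all
  vertices are reached by successively adding vertices with at least `r - 2` neighbours among the
  vertices reached before;
* every graph with `P` has a subgraph of minimum degree at least `r - 1`.

Then `P` is evasive, for every `n` (no prime power condition and no condition that `n` is large).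

If `f` is a graph parameter with `clique number ≤ f ≤ degeneracy + 1` on all graphs, then `f ≥ r` (or
`f > t` for a real number `t`, with `r` the least integer `> t`) is such a property: the clique,
chromatic, circular, fractional, vector, list and correspondence chromatic numbers, the Lovász
theta number of the complement, the Hall ratio, the coloring number, one plus the maximum
connectivity or edge-connectivity of a subgraph.  The first condition also allows to add any of the
requirements that `G` is `(r - 2)`-connected, has minimum degree at least `r - 2`, or is generically
rigid in dimension `r - 2`; for `r = 3` for example: connected and not bipartite, connected and not a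
tree, every component contains a cycle, every component contains an odd cycle.
Every non-trivial property that is closed under homomorphisms is evasive for every `n`: not being
`k`-colourable, having no homomorphism to a fixed graph, containing an odd cycle of length at
most `g`, ....

Proof.  An explicit adversary.  Fix a set `C` of `r - 2` hubs.  Pairs with a hub are answered with yes
and all other pairs with no, with the following exceptions.  When the last pair of `x ∉ C` outside
the hubs is queried while a pair of `x` and a hub has not been queried and `x` has no partner, the
answer is yes: `x` becomes a leaf attached to the other vertex (its centre), so that the remaining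
pairs with hubs stay relevant.  When the last pair of a leaf `x` and a hub is queried, the answer is
no (`x` is dropped), unless its centre has no other leaf, no unqueried pair outside the hubs, and an
unqueried pair with a hub, in which case the two exchange their roles.  The last query outside the
pairs of hubs is answered with yes if a pair of hubs has not been queried.  At every time the graph
of the positive answers is `(r - 2)`-degenerate, and if all unqueried pairs are added, then the hubs
and two further vertices form a complete subgraph on `r` vertices that spreads.
-/

namespace Pool.Agent.Results.MP_257582_lc.CliqueCoreSandwich

/-- Every decision strategy `σ` (the next pair to be queried depends only on the answers to the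
queries made so far) needs all `n.choose 2` queries: there are two graphs that agree on the first
`n.choose 2 - 1` queried pairs, one with and one without `P`. -/
def Evasive {n : ℕ} (P : SimpleGraph (Fin n) → Prop) : Prop :=
  ∀ σ : Finset (Sym2 (Fin n)) → SimpleGraph (Fin n) → Sym2 (Fin n),
    (∀ (Q : Finset (Sym2 (Fin n))) (G H : SimpleGraph (Fin n)),
        (∀ e ∈ Q, (e ∈ G.edgeSet ↔ e ∈ H.edgeSet)) → σ Q G = σ Q H) →
    ∃ G H : SimpleGraph (Fin n),
      (∀ e ∈ (fun Q : Finset (Sym2 (Fin n)) => insert (σ Q G) Q)^[n.choose 2 - 1]
            (∅ : Finset (Sym2 (Fin n))),
          (e ∈ G.edgeSet ↔ e ∈ H.edgeSet)) ∧ P G ∧ ¬ P H

open Classical in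
/-- Some complete subgraph `K` on `r` vertices spreads: every vertex set `S ⊇ K` that does not
contain all vertices misses a vertex with at least `r - 2` neighbours in `S`. -/
def Spreads {n : ℕ} (r : ℕ) (G : SimpleGraph (Fin n)) : Prop :=
  ∃ K : Finset (Fin n), G.IsNClique r K ∧
    ∀ S : Finset (Fin n), K ⊆ S → S ≠ Finset.univ →
      ∃ v, v ∉ S ∧ r ≤ (S.filter (fun w => G.Adj v w)).card + 2

open Classical in
/-- Some non-empty vertex set `W` induces a subgraph of minimum degree at least `r - 1`. -/
def HasCore {n : ℕ} (r : ℕ) (G : SimpleGraph (Fin n)) : Prop :=
  ∃ W : Finset (Fin n), W.Nonempty ∧ ∀ v ∈ W, r ≤ (W.filter (fun w => G.Adj v w)).card + 1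

/-- **Every property between spreading cliques on `r` vertices and subgraphs of minimum degree at
least `r - 1` is evasive.** -/
theorem result (n r : ℕ) (hr : 2 ≤ r) (hrn : r ≤ n) (P : SimpleGraph (Fin n) → Prop)
    (hspread : ∀ G, Spreads r G → P G) (hcore : ∀ G, P G → HasCore r G) : Evasive P :=
  fun s hs => Pool.Agent.Y577.KD.main n r hr hrn P hspread hcore s hs

end Pool.Agent.Results.MP_257582_lc.CliqueCoreSandwich
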