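import Pool.Agent.Y46.Kc.Cop2
import Pool.Agent.H119R2.Kp.D4
import Pool.Agent.H119R2.Kp.PVE

set_option autoImplicit false

/-!
# Properties which hold for disjoint copies of a small bipartite graph are evasive (MP_257582_lc)

Let `n = k Q` with a prime power `Q` and let `B` be a bipartite graph on `Q` vertices. A monotone
isomorphism-invariant property of graphs on `n` vertices which fails for the graph without edges and
holds for `k` disjoint copies of `B` is evasive, and so is a property which holds for the complete
graph and fails for the complement of `k` disjoint copies of `B`, provided that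

* `Q` is prime and `B` is the path on `Q` vertices (every `k` is allowed), or
* `B` is any bipartite graph on `Q` vertices and `gcd(k, m)` is `1` or a prime power, where
  `m = Q - 1` or `m = (Q - 1) / 2`.

Examples: for EVEN `n` every such property which holds for a perfect matching is evasive (`Q = 2`);
for arbitrary `n` and every prime `p` dividing `n` the property is evasive if it holds for `n / p`
disjoint paths on `p` vertices, hence, for every `n`, if it holds for a matching with at most `n / 3`
edges; if `4` divides `n` it is evasive if it holds for `n / 4` disjoint cycles of length 4; if `Q`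
divides `n` and `(Q - 1) / 2` or `Q - 1` is a prime power (`Q = 5, 7, 8, 9, 11, 17, 19, 23, 27, …`)
it is evasive if it holds for `n / Q` disjoint copies of the complete bipartite graph with parts of
sizes `⌊Q / 2⌋`, `⌈Q / 2⌉`.

Proof.  The vertex set is cut into `k` blocks, each of them a copy of the field `F` with `Q` elements.
The group is generated by the translations of the single blocks, the permutation
`(i, x) ↦ (i + 1, g x)` and `(i, x) ↦ (i, g x)` with a generator `g` of the multiplicative group;
on pairs of vertices the last one has an order which is a power of a prime modulo the first ones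
because of the condition on the greatest common divisor. Pairs inside the blocks form one orbit, pairs
of different blocks form one orbit for every difference of the blocks up to sign, and each of these
orbits contains `k` disjoint copies of `B`: shift the vertices of one colour class of `B` to another
block. So the complex of the graphs without the property has no invariant points, which contradicts
the theorems of Smith, Lefschetz and Oliver (Kahn, Saks and Sturtevant) if the property is not
evasive.
-/

namespace Pool.Agent.Results.MP_257582_lc.DisjointCopies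

open Pool.Agent.H119R2.Kp (GP PV dual)

/-- Every decision strategy `σ` (the next pair to be queried depends only on the answers to the
queries made so far) needs all `n.choose 2` queries: there are two graphs that agree on the first
`n.choose 2 - 1` queried pairs, one with and one without `P`. -/
def Evasive {n : ℕ} (P : SimpleGraph (Fin n) → Prop) : Prop :=
  ∀ σ : Finset (Sym2 (Fin n)) → SimpleGraph (Fin n) → Sym2 (Fin n),
    (∀ (Q : Finset (Sym2 (Fin n))) (G H : SimpleGraph (Fin n)),
        (∀ e ∈ Q, (e ∈ G.edgeSet ↔ e ∈ H.edgeSet)) → σ Q G = σ Q H) →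
    ∃ G H : SimpleGraph (Fin n),
      (∀ e ∈ (fun Q : Finset (Sym2 (Fin n)) => insert (σ Q G) Q)^[n.choose 2 - 1]
            (∅ : Finset (Sym2 (Fin n))),
          (e ∈ G.edgeSet ↔ e ∈ H.edgeSet)) ∧ P G ∧ ¬ P H

/-- `k` disjoint copies of the graph `B`. -/
def copies (k : ℕ) {Q : ℕ} (B : SimpleGraph (Fin Q)) : SimpleGraph (Fin k × Fin Q) where
  Adj u v := u.1 = v.1 ∧ B.Adj u.2 v.2
  symm := ⟨fun _ _ h => ⟨h.1.symm, h.2.symm⟩⟩
  loopless := ⟨fun u h => B.loopless.irrefl u.2 h.2⟩

/-- The property `P` of graphs on `Fin n` holds for a graph on `Fin n` isomorphic to `G`. -/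
def Holds {n : ℕ} (P : SimpleGraph (Fin n) → Prop) {V : Type} (G : SimpleGraph V) : Prop :=
  ∃ e : V ≃ Fin n, P (G.map e.toEmbedding)

/-- **Properties which hold for disjoint copies of a bipartite graph are evasive.** -/
theorem result (n k Q : ℕ) (hQ : IsPrimePow Q) (hn : n = k * Q) (B : SimpleGraph (Fin Q))
    (hB : (Q.Prime ∧ B = SimpleGraph.pathGraph Q) ∨
      (B.Colorable 2 ∧ ∃ m : ℕ, (m = Q - 1 ∨ 2 * m = Q - 1) ∧
        (Nat.gcd k m = 1 ∨ IsPrimePow (Nat.gcd k m))))
    (P : SimpleGraph (Fin n) → Prop)
    (hmono : ∀ G H : SimpleGraph (Fin n), G ≤ H → P G → P H)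
    (hiso : ∀ (σ : Fin n ≃ Fin n) (G : SimpleGraph (Fin n)), P G → P (G.map σ.toEmbedding))
    (hP : (¬ P ⊥ ∧ Holds P (copies k B)) ∨ (P ⊤ ∧ ¬ Holds P (copies k B)ᶜ)) :
    Evasive P := by
  intro σ hσ
  by_contra hcon
  have hdec : Pool.Agent.H119R2.Kp.Dec (n.choose 2 - 1)
      (fun S : Finset (Pool.Agent.H98R2.Ev.EV (Fin n)) => P (Pool.Agent.H98R2.Ev.toG S)) := by
    refine Pool.Agent.H119R2.Kp.dec_of_strategy _ P σ hσ fun G H hGH hPG => ?_
    by_contra hPH
    exact hcon ⟨G, H, hGH, hPG, hPH⟩
  have hGP : GP n (n.choose 2 - 1) P := ⟨hmono, hiso, hdec⟩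
  have hcard : Nonempty (Fin k × Fin Q ≃ Fin n) := by
    rw [hn]
    exact ⟨finProdFinEquiv⟩
  rcases Nat.eq_zero_or_pos k with hk | hk
  · have hn0 : n = 0 := by rw [hn, hk, zero_mul]
    have hsub : ∀ G H : SimpleGraph (Fin n), G = H := by
      intro G H
      ext u v
      exact absurd u.2 (by omega)
    rcases hP with ⟨h0, e, he⟩ | ⟨h0, h1⟩
    · exact h0 (by rwa [hsub ⊥ ((copies k B).map e.toEmbedding)])
    · obtain ⟨e⟩ := hcard
      exact h1 ⟨e, by rwa [hsub ((copies k B)ᶜ.map e.toEmbedding) ⊤]⟩
  · have hn2 : 2 ≤ n := by
      have := hQ.two_le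
      rw [hn]
      nlinarith
    have hch : 0 < n.choose 2 := Nat.choose_pos hn2
    have hbot : ∀ (P' : SimpleGraph (Fin n) → Prop), ¬ P' ⊥ → ¬ PV P' (Fin k × Fin Q) ⊥ := by
      rintro P' h0 ⟨e, he⟩
      have h2 : (⊥ : SimpleGraph (Fin k × Fin Q)).map e.toEmbedding = ⊥ := by
        ext a b
        rw [SimpleGraph.map_adj]
        constructor
        · rintro ⟨u, v, h, _⟩
          exact h
        · exact fun h => h.elim
      rw [h2] at he
      exact h0 he
    have main : n.choose 2 ≤ n.choose 2 - 1 := by
      rcases hP with ⟨h0, h1⟩ | ⟨h0, h1⟩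
      · exact Pool.Agent.Y46.Kc.all_cases hGP hk.ne' hQ hn B hB (hbot P h0) h1
      · refine Pool.Agent.Y46.Kc.all_cases hGP.dual' hk.ne' hQ hn B hB (hbot _ ?_) ?_
        · intro h
          apply h
          rwa [compl_bot]
        · exact (Pool.Agent.H119R2.Kp.PV_dual hGP _ _ hcard).2 h1
    omega

end Pool.Agent.Results.MP_257582_lc.DisjointCopies
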