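import Pool.Agent.Y46.Kc.Near2

set_option autoImplicit false

/-!
# Every property of graphs on `k p ^ a` vertices needs `(1 - 1 / k) n ^ 2 / 2` queries (MP_257582_lc)

Let `k ≥ 3` be a prime such that `(k - 1) / 2` or `(k - 1) / 4` is `1` or a prime power
(`k = 3, 5, 7, 11, 13, 17, 19, 23, 29, 37, 47, 53, 59, 83, 101, 107, …, 257, …, 65537, …`), let `p ^ a`
be any prime power and `n = k p ^ a`. Then every non-trivial monotone isomorphism-invariant property
of graphs on `n` vertices has complexity at least `C(k, 2) p ^ (2 a) = (1 - 1 / k) n ^ 2 / 2`, so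
all but at most one `(k - 1)`-th of the pairs have to be queried. For `n` not a prime power the best
universal lower bound before was `(9 / 25 - o(1)) n ^ 2` (`NineTwentyFifths`, published:
`n ^ 2 / 3 - o(n ^ 2)`).

Proof.  The vertices are cut into `k` blocks `W`, elementary abelian groups of order `p ^ a`. Fix a
translation invariant graph `X` inside the blocks (the same for all blocks) and let the pairs of
different blocks be unknown. The group generated by the translations of the single blocks and the
rotation of the blocks gives (Smith, Lefschetz; Kahn, Saks and Sturtevant) a linear relation between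
the values of the property on the invariant graphs, which are given by the set of differences of
joined blocks, up to sign. The multiplications of the block numbers by a generator of the units
modulo `k` permute these sets cyclically, and the relation modulo the prime in `(k - 1) / 2` or
`(k - 1) / 4` shows: if the property fails when no blocks are joined then it fails when all blocks
are joined. Finally let `d` be a further difference: the graph `X + d` with no blocks joined is
contained in the graph `X` with all blocks joined, because the graph of the difference `d` is a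
union of cycles, so it has a proper colouring with three colours, which can be used to distribute the
vertices to different blocks. By induction the property fails for all graphs.
-/

namespace Pool.Agent.Results.MP_257582_lc.PrimeMultiples

open Pool.Agent.H119R2.Kp (GP PV)
open Pool.Agent.Y46.Kc

/-- **Near-evasiveness for `n = k p ^ a`.** -/
theorem result (n k p a l N : ℕ) (hk : k.Prime) (hl : l.Prime)
    (hkl : k = 2 * l ^ N + 1 ∨ k = 4 * l ^ N + 1) (hp : p.Prime) (hn : n = k * p ^ a)
    (P : SimpleGraph (Fin n) → Prop)
    (hmono : ∀ G H : SimpleGraph (Fin n), G ≤ H → P G → P H)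
    (hiso : ∀ (σ : Fin n ≃ Fin n) (G : SimpleGraph (Fin n)), P G → P (G.map σ.toEmbedding))
    (hex : ∃ G : SimpleGraph (Fin n), P G) (hne : ∃ G : SimpleGraph (Fin n), ¬ P G) :
    ∀ s : Finset (Sym2 (Fin n)) → SimpleGraph (Fin n) → Sym2 (Fin n),
      (∀ (Q : Finset (Sym2 (Fin n))) (G H : SimpleGraph (Fin n)),
          (∀ e ∈ Q, (e ∈ G.edgeSet ↔ e ∈ H.edgeSet)) → s Q G = s Q H) →
      ∀ q : ℕ, q < k.choose 2 * (p ^ a) ^ 2 →
        ∃ G H : SimpleGraph (Fin n),
          (∀ e ∈ (fun Q : Finset (Sym2 (Fin n)) => insert (s Q G) Q)^[q]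
                (∅ : Finset (Sym2 (Fin n))),
              (e ∈ G.edgeSet ↔ e ∈ H.edgeSet)) ∧ P G ∧ ¬ P H := by
  intro s hs q hq
  by_contra hcon
  have hdec : Pool.Agent.H119R2.Kp.Dec q
      (fun S : Finset (Pool.Agent.H98R2.Ev.EV (Fin n)) => P (Pool.Agent.H98R2.Ev.toG S)) := by
    refine Pool.Agent.H119R2.Kp.dec_of_strategy _ P s hs fun G H hGH hPG => ?_
    by_contra hPH
    exact hcon ⟨G, H, hGH, hPG, hPH⟩
  have hGP : GP n q P := ⟨hmono, hiso, hdec⟩
  have : Fact p.Prime := ⟨hp⟩
  have : NeZero k := ⟨hk.ne_zero⟩
  have hpos : 0 < l ^ N := Nat.pos_of_ne_zero (pow_ne_zero _ hl.ne_zero)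
  have hk3 : 3 ≤ k := by omega
  have hcard : Nonempty (VV 0 k (Fin a → ZMod p) ≃ Fin n) := by
    refine ⟨Fintype.equivFinOfCardEq ?_⟩
    simp [ZMod.card, hn]
  have htop : PV P (VV 0 k (Fin a → ZMod p)) (GG ⊥ ∅ Set.univ Set.univ) := by
    obtain ⟨e⟩ := hcard
    refine ⟨e, ?_⟩
    obtain ⟨G, hG⟩ := hex
    refine hmono _ _ ?_ hG
    intro x y hxy
    rw [SimpleGraph.map_adj]
    refine ⟨e.symm x, e.symm y, ?_, by simp, by simp⟩
    have hne : e.symm x ≠ e.symm y := fun h => hxy.ne (e.symm.injective h)
    revert hne
    rcases e.symm x with u | u <;> rcases e.symm y with v | v <;> intro hne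
    · exact u.elim0
    · exact u.elim0
    · exact v.elim0
    · by_cases h : u.1 = v.1
      · refine Or.inl ⟨h, fun h2 => hne ?_, Or.inl trivial⟩
        rw [Prod.ext h h2]
      · exact Or.inr ⟨h, Or.inl trivial⟩
  have hbot := near hGP p a hk hk3 (by rw [zero_add, hn]) l N hl hkl hq ⊥ ∅ htop
  obtain ⟨e, he⟩ := hbot
  obtain ⟨H, hH⟩ := hne
  apply hH
  refine hmono _ _ ?_ he
  intro x y hxy
  rw [SimpleGraph.map_adj] at hxy
  obtain ⟨u, v, huv, _⟩ := hxy
  exfalso
  rcases u with u | u <;> rcases v with v | v
  · exact u.elim0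
  · exact u.elim0
  · exact v.elim0
  · rcases huv with ⟨_, _, h | h⟩ | ⟨_, h | h⟩ <;> exact h

end Pool.Agent.Results.MP_257582_lc.PrimeMultiples
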